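import Pool.Agent.W805.LR.Stm4

/-!
# Part CL1 of project PD: local facts of one exploration step
(helper349)
-/

set_option autoImplicit false

open Finset Equiv
open Pool.Agent.W805.PD

namespace W349.PD

section

variable {V : Type} [Fintype V] [DecidableEq V]

theorem rem_apply (h : Perm V) (a x : V) :
    rem h a x = if x = a then a else if h x = a then h a else h x := by
  unfold rem
  rw [Perm.mul_apply]
  by_cases hx : x = a
  · subst hx
    rw [if_pos rfl, swap_apply_right]
  · rw [if_neg hx]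
    by_cases h1 : h x = a
    · rw [if_pos h1, h1, swap_apply_left]
    · rw [if_neg h1, swap_apply_of_ne_of_ne h1]
      intro h2
      exact hx (h.injective h2)

/-- the values of `stepP` -/
theorem stepP_apply (ρ : Perm V) (a s : V) (h1 : ρ a ≠ a) (h2 : s ≠ a) (h3 : s ≠ ρ a) (x : V) :
    stepP ρ (ρ a) s x = if x = ρ a then ρ a else if x = s then s else
      if x = a then (if ρ s = s then ρ (ρ a) else ρ s) else if ρ x = s then ρ (ρ a) else ρ x := by
  have hee : ρ (ρ a) ≠ ρ a := fun h => h1 (ρ.injective h)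
  have hse : ρ s ≠ ρ a := fun h => h2 (ρ.injective h)
  have hg : ∀ y, (swap (ρ a) s * ρ) y = if y = a then s else if ρ y = s then ρ a else ρ y := by
    intro y
    rw [Perm.mul_apply]
    by_cases hy : y = a
    · rw [if_pos hy, hy, swap_apply_left]
    · rw [if_neg hy]
      by_cases hy' : ρ y = s
      · rw [if_pos hy', hy', swap_apply_right]
      · rw [if_neg hy', swap_apply_of_ne_of_ne _ hy']
        intro h
        exact hy (ρ.injective h)
  have hg1 : ∀ y, rem (swap (ρ a) s * ρ) (ρ a) y = if y = ρ a then ρ a else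
      if y = a then s else if ρ y = s then ρ (ρ a) else ρ y := by
    intro y
    rw [rem_apply, hg, hg, if_neg h1]
    by_cases hy : y = ρ a
    · rw [if_pos hy, if_pos hy]
    · rw [if_neg hy, if_neg hy]
      by_cases hya : y = a
      · simp only [if_pos hya, if_neg h3]
      · by_cases hys : ρ y = s
        · simp only [if_neg hya, if_pos hys, if_true]
          rw [if_neg]
          intro h
          exact hy (ρ.injective (hys.trans h.symm))
        · have hyy : ¬ ρ y = ρ a := fun h => hya (ρ.injective h)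
          simp only [if_neg hya, if_neg hys, if_neg hyy]
  unfold stepP
  rw [rem_apply, hg1, hg1, if_neg h3, if_neg h2]
  by_cases hxe : x = ρ a
  · rw [if_pos hxe, if_pos hxe, hxe, if_neg (Ne.symm h3), if_neg (Ne.symm h3)]
  · rw [if_neg hxe, if_neg hxe]
    by_cases hxs : x = s
    · rw [if_pos hxs, if_pos hxs]
    · rw [if_neg hxs, if_neg hxs]
      by_cases hxa : x = a
      · rw [if_pos hxa, if_pos rfl, if_pos hxa]
      · rw [if_neg hxa, if_neg hxa]
        by_cases hq : ρ x = s
        · rw [if_pos hq, if_neg]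
          intro h
          exact hxe (ρ.injective (hq.trans h.symm))
        · rw [if_neg hq, if_neg hq]

end

/-- the first five items of `S_local` -/
theorem main1 : ∀ (V : Type) [Fintype V] [DecidableEq V] (ρ : Perm V) (E S : Finset V) (a : V),
  Disjoint E S → (∀ x, x ∉ E → x ∉ S → ρ x = x) → a ∈ S → (∀ x ∈ S, ρ x ∉ S) →
  -- the support
  (∀ s ∈ E.erase (ρ a), ∀ x, x ∉ (E.erase (ρ a)).erase s → x ∉ S → stepP ρ (ρ a) s x = x) ∧
  -- the number of short cycles
  (∑ s ∈ E.erase (ρ a), (Wc (stepP ρ (ρ a) s) ((E.erase (ρ a)).erase s) S : ℝ) + Wc ρ E S ≤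
    ((E.card : ℝ) - 1) * Wc ρ E S + 3) ∧
  (∀ s ∈ E.erase (ρ a), Wc (stepP ρ (ρ a) s) ((E.erase (ρ a)).erase s) S ≤ Wc ρ E S + 2) ∧
  (((E.erase (ρ a)).filter fun s =>
    Wc ρ E S < Wc (stepP ρ (ρ a) s) ((E.erase (ρ a)).erase s) S).card ≤ 2) ∧
  (∀ s ∈ E.erase (ρ a), ρ s ∈ S →
    Wc ρ E S ≤ Wc (stepP ρ (ρ a) s) ((E.erase (ρ a)).erase s) S) := by
  intro V _ _ ρ E S a hES hfix haS hSS
  have hd : ∀ x ∈ E, x ∉ S := fun x hx hx' => (Finset.disjoint_left.1 hES) hx hx'
  have heS : ρ a ∉ S := hSS a haS
  have hea : ρ a ≠ a := fun h => heS (h.symm ▸ haS)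
  have hee : ρ (ρ a) ≠ ρ a := fun h => hea (ρ.injective h)
  have heE : ρ a ∈ E := by
    by_contra h
    exact hee (hfix _ h heS)
  have hval : ∀ s ∈ E.erase (ρ a), ∀ x, stepP ρ (ρ a) s x = if x = ρ a then ρ a else
      if x = s then s else if x = a then (if ρ s = s then ρ (ρ a) else ρ s) else
      if ρ x = s then ρ (ρ a) else ρ x := by
    intro s hs x
    rw [Finset.mem_erase] at hs
    exact stepP_apply ρ a s hea (fun h => hd s hs.2 (h ▸ haS)) hs.1 x
  set W : Finset V := E.filter fun x => ρ (ρ x) = x ∧ ρ x ∉ S with hW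
  have hWc : Wc ρ E S = W.card := rfl
  set W' : V → Finset V := fun s => ((E.erase (ρ a)).erase s).filter fun x =>
    stepP ρ (ρ a) s (stepP ρ (ρ a) s x) = x ∧ stepP ρ (ρ a) s x ∉ S with hW'
  have hWc' : ∀ s, Wc (stepP ρ (ρ a) s) ((E.erase (ρ a)).erase s) S = (W' s).card := fun s => rfl
  have heW : ρ a ∉ W := by
    rw [hW, Finset.mem_filter]
    rintro ⟨-, h1, h2⟩
    rw [ρ.injective h1] at h2
    exact h2 haS
  have hWE : W ⊆ E.erase (ρ a) := by
    intro x hx
    rw [Finset.mem_erase]
    exact ⟨fun h => heW (h ▸ hx), (Finset.mem_filter.1 hx).1⟩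
  set N : V → Finset V := fun s => (if s = ρ (ρ (ρ a)) then {ρ (ρ a)} else ∅) ∪
    (if s = ρ (ρ (ρ (ρ a))) then {ρ (ρ a), ρ (ρ (ρ a))} else ∅) with hN
  have hsub : ∀ s ∈ E.erase (ρ a), W' s ⊆ (W.erase s) ∪ N s := by
    intro s hs x hx
    have hs' := Finset.mem_erase.1 hs
    simp only [hW', Finset.mem_filter, Finset.mem_erase] at hx
    obtain ⟨⟨hxs, hxe, hxE⟩, h1, h2⟩ := hx
    have hxa : x ≠ a := fun h => hd x hxE (h ▸ haS)
    have hv := hval s hs x
    rw [if_neg hxe, if_neg hxs, if_neg hxa] at hv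
    rw [Finset.mem_union]
    by_cases hq : ρ x = s
    · right
      rw [if_pos hq] at hv
      rw [hv] at h1 h2
      have hya : ρ (ρ a) ≠ a := fun h => h2 (h.symm ▸ haS)
      have hys : ρ (ρ a) ≠ s := fun h => hxe (ρ.injective (hq.trans h.symm))
      rw [hval s hs, if_neg hee, if_neg hys, if_neg hya] at h1
      by_cases h3 : ρ (ρ (ρ a)) = s
      · rw [if_pos h3] at h1
        simp only [hN, Finset.mem_union]
        left
        rw [if_pos h3.symm, Finset.mem_singleton, h1]
      · rw [if_neg h3] at h1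
        simp only [hN, Finset.mem_union]
        right
        rw [if_pos (by rw [h1, hq]), Finset.mem_insert, Finset.mem_singleton]
        right
        exact h1.symm
    · rw [if_neg hq] at hv
      rw [hv] at h1 h2
      have hya : ρ x ≠ a := fun h => h2 (h.symm ▸ haS)
      have hye : ρ x ≠ ρ a := fun h => hxa (ρ.injective h)
      rw [hval s hs, if_neg hye, if_neg hq, if_neg hya] at h1
      by_cases h3 : ρ (ρ x) = s
      · right
        rw [if_pos h3] at h1
        simp only [hN, Finset.mem_union]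
        right
        rw [if_pos (by rw [h1, h3]), Finset.mem_insert]
        left
        exact h1.symm
      · left
        rw [if_neg h3] at h1
        rw [Finset.mem_erase]
        exact ⟨hxs, Finset.mem_filter.2 ⟨hxE, h1, h2⟩⟩
  have hN2 : ∀ s, N s ⊆ {ρ (ρ a), ρ (ρ (ρ a))} := by
    intro s
    simp only [hN]
    apply Finset.union_subset
    · split_ifs
      · intro x hx
        rw [Finset.mem_singleton] at hx
        rw [hx]
        exact Finset.mem_insert_self _ _
      · exact Finset.empty_subset _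
    · split_ifs
      · exact Finset.Subset.refl _
      · exact Finset.empty_subset _
  have hNc : ∀ s, (N s).card ≤ 2 := fun s => (Finset.card_le_card (hN2 s)).trans Finset.card_le_two
  have hcard : ∀ s ∈ E.erase (ρ a), (W' s).card ≤ (W.erase s).card + (N s).card := fun s hs =>
    (Finset.card_le_card (hsub s hs)).trans (Finset.card_union_le _ _)
  have hcN : ∀ s, (N s).card ≤ (if s = ρ (ρ (ρ a)) then 1 else 0) +
      (if s = ρ (ρ (ρ (ρ a))) then 2 else 0) := by
    intro s
    refine (Finset.card_union_le _ _).trans (add_le_add ?_ ?_)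
    · split_ifs
      · simp
      · simp
    · split_ifs
      · exact Finset.card_le_two
      · simp
  refine ⟨?_, ?_, ?_, ?_, ?_⟩
  · intro s hs x hx hxS
    have hs' := Finset.mem_erase.1 hs
    rw [hval s hs]
    by_cases hxe : x = ρ a
    · rw [if_pos hxe, hxe]
    · rw [if_neg hxe]
      by_cases hxs : x = s
      · rw [if_pos hxs, hxs]
      · rw [if_neg hxs, if_neg (show ¬ x = a from fun h => hxS (h.symm ▸ haS))]
        have hxE : x ∉ E := fun h => hx (by simp [hxs, hxe, h])
        rw [hfix x hxE hxS, if_neg hxs]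
  · rw [hWc]
    simp only [hWc']
    have h1 : ∀ s ∈ E.erase (ρ a), (W' s).card + (if s ∈ W then 1 else 0) ≤
        W.card + ((if s = ρ (ρ (ρ a)) then 1 else 0) + (if s = ρ (ρ (ρ (ρ a))) then 2 else 0)) := by
      intro s hs
      have h2 := hcard s hs
      have h3 := hcN s
      have h4 : (W.erase s).card + (if s ∈ W then 1 else 0) ≤ W.card := by
        by_cases hsW : s ∈ W
        · rw [if_pos hsW, Finset.card_erase_add_one hsW]
        · rw [if_neg hsW, Finset.erase_eq_of_notMem hsW, add_zero]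
      omega
    have h2 := Finset.sum_le_sum h1
    rw [Finset.sum_add_distrib, Finset.sum_add_distrib, Finset.sum_add_distrib, Finset.sum_const,
      smul_eq_mul, Finset.sum_ite_eq', Finset.sum_ite_eq'] at h2
    have h3 : ∑ s ∈ E.erase (ρ a), (if s ∈ W then 1 else 0) = W.card := by
      rw [← Finset.sum_filter, Finset.sum_const, smul_eq_mul, mul_one]
      congr 1
      ext x
      rw [Finset.mem_filter]
      exact ⟨fun h => h.2, fun h => ⟨hWE h, h⟩⟩
    rw [h3, Finset.card_erase_of_mem heE] at h2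
    have h4 : (if ρ (ρ (ρ a)) ∈ E.erase (ρ a) then 1 else 0) +
        (if ρ (ρ (ρ (ρ a))) ∈ E.erase (ρ a) then 2 else 0) ≤ 3 := by
      split_ifs <;> norm_num
    have h5 : ∑ s ∈ E.erase (ρ a), (W' s).card + W.card ≤ (E.card - 1) * W.card + 3 := by omega
    have h6 : 1 ≤ E.card := Finset.card_pos.2 ⟨_, heE⟩
    have h7 : ((E.card - 1 : ℕ) : ℝ) = (E.card : ℝ) - 1 := by
      rw [Nat.cast_sub h6, Nat.cast_one]
    rw [← h7]
    exact_mod_cast h5
  · intro s hs
    rw [hWc, hWc']
    have h1 := hcard s hs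
    have h2 := hNc s
    have h3 : (W.erase s).card ≤ W.card := Finset.card_erase_le
    omega
  · refine (Finset.card_le_card (t := {ρ (ρ (ρ a)), ρ (ρ (ρ (ρ a)))}) ?_).trans
      Finset.card_le_two
    intro s hs
    rw [Finset.mem_filter, hWc, hWc'] at hs
    by_contra hcon
    rw [Finset.mem_insert, Finset.mem_singleton] at hcon
    push Not at hcon
    have h1 := hcard s hs.1
    have h2 := hcN s
    rw [if_neg hcon.1, if_neg hcon.2] at h2
    have h3 : (W.erase s).card ≤ W.card := Finset.card_erase_le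
    omega
  · intro s hs hsS
    rw [hWc, hWc']
    apply Finset.card_le_card
    intro x hx
    have hxe := Finset.mem_erase.1 (hWE hx)
    obtain ⟨hxE, h1, h2⟩ := Finset.mem_filter.1 hx
    have hxs : x ≠ s := by
      rintro rfl
      exact h2 hsS
    have hxa : x ≠ a := fun h => hd x hxE (h ▸ haS)
    have hq : ρ x ≠ s := by
      intro h
      rw [h] at h1
      rw [h1] at hsS
      exact hd x hxE hsS
    have hv : stepP ρ (ρ a) s x = ρ x := by
      rw [hval s hs, if_neg hxe.1, if_neg hxs, if_neg hxa, if_neg hq]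
    have hv2 : stepP ρ (ρ a) s (ρ x) = x := by
      rw [hval s hs, if_neg (show ¬ ρ x = ρ a from fun h => hxa (ρ.injective h)), if_neg hq,
        if_neg (show ¬ ρ x = a from fun h => h2 (h.symm ▸ haS)),
        if_neg (show ¬ ρ (ρ x) = s by rw [h1]; exact hxs), h1]
    simp only [hW', Finset.mem_filter, Finset.mem_erase]
    exact ⟨⟨hxs, hxe.1, hxE⟩, by rw [hv, hv2], by rw [hv]; exact h2⟩

end W349.PD
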