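import Pool.Agent.W349.PD.CL1

/-!
# Part CL2 of project PD: local facts of one exploration step, distance to `S`
(helper349)
-/

set_option autoImplicit false

open Finset Equiv
open Pool.Agent.W805.PD

namespace W349.PD

section

variable {V : Type} [Fintype V] [DecidableEq V]

theorem pow_succ_app (ρ : Perm V) (i : ℕ) (x : V) : (ρ ^ (i + 1)) x = ρ ((ρ ^ i) x) := by
  rw [pow_succ', Perm.mul_apply]

theorem pow_succ_app' (ρ : Perm V) (i : ℕ) (x : V) : (ρ ^ (i + 1)) x = (ρ ^ i) (ρ x) := by
  rw [pow_succ, Perm.mul_apply]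

theorem pow_add_app (ρ : Perm V) (i j : ℕ) (x : V) : (ρ ^ (i + j)) x = (ρ ^ i) ((ρ ^ j) x) := by
  rw [pow_add, Perm.mul_apply]

/-- the first hit is late -/
theorem Ua_le (ρ : Perm V) (S : Finset V) (a : V) (ha : a ∈ S) (k : ℕ)
    (h : ∀ i, 1 ≤ i → i < k → (ρ ^ i) a ∉ S) : Ua ρ S a ≤ (1 / 2) ^ (k - 1) := by
  unfold Ua
  have hne : {k : ℕ | 1 ≤ k ∧ (ρ ^ k) a ∈ S}.Nonempty :=
    ⟨orderOf ρ, orderOf_pos ρ, by rw [pow_orderOf_eq_one]; exact ha⟩
  have h1 := Nat.sInf_mem hne
  have h2 : k ≤ sInf {k : ℕ | 1 ≤ k ∧ (ρ ^ k) a ∈ S} := by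
    by_contra hlt
    push Not at hlt
    exact h _ h1.1 hlt h1.2
  apply pow_le_pow_of_le_one (by norm_num) (by norm_num)
  omega

theorem Ua_spec (ρ : Perm V) (S : Finset V) (a : V) (ha : a ∈ S) (h1 : ρ a ∉ S) :
    ∃ g : ℕ, 1 ≤ g ∧ Ua ρ S a = (1 / 2) ^ g ∧ (ρ ^ (g + 1)) a ∈ S ∧
      ∀ i, 1 ≤ i → i ≤ g → (ρ ^ i) a ∉ S := by
  have hne : {k : ℕ | 1 ≤ k ∧ (ρ ^ k) a ∈ S}.Nonempty :=
    ⟨orderOf ρ, orderOf_pos ρ, by rw [pow_orderOf_eq_one]; exact ha⟩
  have h2 := Nat.sInf_mem hne
  set k := sInf {k : ℕ | 1 ≤ k ∧ (ρ ^ k) a ∈ S} with hk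
  have hk1 : k ≠ 1 := by
    intro h
    rw [h] at h2
    apply h1
    simpa using h2.2
  have hk0 : 1 ≤ k := h2.1
  refine ⟨k - 1, by omega, rfl, ?_, ?_⟩
  · rw [show k - 1 + 1 = k by omega]
    exact h2.2
  · intro i hi1 hi2 hiS
    have := Nat.sInf_le (s := {k : ℕ | 1 ≤ k ∧ (ρ ^ k) a ∈ S}) ⟨hi1, hiS⟩
    omega

theorem geo (n : ℕ) : ∑ r ∈ Finset.range n, ((1 : ℝ) / 2) ^ (r + 1) = 1 - (1 / 2) ^ n := by
  induction n with
  | zero => simp
  | succ n ih =>
    rw [Finset.sum_range_succ, ih, pow_succ]
    ring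

/-- summation over points which hit `S` at different places or times -/
theorem sum_hit (ρ : Perm V) (S T : Finset V) (r : V → ℕ) (hr : ∀ s ∈ T, 2 ≤ r s)
    (hS : ∀ s ∈ T, (ρ ^ r s) s ∈ S) : ∑ s ∈ T, ((1 : ℝ) / 2) ^ (r s - 1) ≤ S.card := by
  set M := T.sup r with hM
  have hinj : Set.InjOn (fun s => (r s - 2, (ρ ^ r s) s)) (T : Set V) := by
    intro s hs t ht hst
    simp only [Prod.mk.injEq] at hst
    have h1 := hr s hs
    have h2 := hr t ht
    have h3 : r s = r t := by omega
    rw [h3] at hst
    exact (ρ ^ r t).injective hst.2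
  have h1 : ∑ s ∈ T, ((1 : ℝ) / 2) ^ (r s - 1) =
      ∑ p ∈ T.image (fun s => (r s - 2, (ρ ^ r s) s)), ((1 : ℝ) / 2) ^ (p.1 + 1) := by
    rw [Finset.sum_image hinj]
    refine Finset.sum_congr rfl fun s hs => ?_
    have := hr s hs
    congr 1
    omega
  rw [h1]
  have h2 : T.image (fun s => (r s - 2, (ρ ^ r s) s)) ⊆ (Finset.range M) ×ˢ S := by
    intro p hp
    rw [Finset.mem_image] at hp
    obtain ⟨s, hs, rfl⟩ := hp
    rw [Finset.mem_product, Finset.mem_range]
    have h3 : r s ≤ M := Finset.le_sup hs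
    have h4 := hr s hs
    exact ⟨by dsimp only; omega, hS s hs⟩
  refine (Finset.sum_le_sum_of_subset_of_nonneg h2 (fun p _ _ => by positivity)).trans ?_
  rw [Finset.sum_product]
  simp only [Finset.sum_const, nsmul_eq_mul]
  rw [← Finset.mul_sum, geo]
  have : (0 : ℝ) ≤ (1 / 2) ^ M := by positivity
  have h5 : (0 : ℝ) ≤ S.card := by positivity
  nlinarith

end

/-- the other items of `S_local` -/
theorem main2 : ∀ (V : Type) [Fintype V] [DecidableEq V] (ρ : Perm V) (E S : Finset V) (a : V),
  Disjoint E S → (∀ x, x ∉ E → x ∉ S → ρ x = x) → a ∈ S → (∀ x ∈ S, ρ x ∉ S) →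
  -- the distance to the next point of `S`
  (∑ s ∈ (E.erase (ρ a)).filter (fun s => stepP ρ (ρ a) s a ∉ S), Ua (stepP ρ (ρ a) s) S a ≤
    S.card + 2 * Ua ρ S a * Wc ρ E S + Ua ρ S a * E.card / 2) ∧
  Ua ρ S a ≤ 1 / 2 ∧
  (Ua ρ S a = 1 / 2 ↔ ρ (ρ a) ∈ S) ∧
  -- hitting `S`
  (ρ (ρ a) ∉ S → ∀ s ∈ E.erase (ρ a), (stepP ρ (ρ a) s a ∈ S ↔ ρ s ∈ S)) ∧
  (ρ (ρ a) ∉ S → ∀ s ∈ E.erase (ρ a), ρ s ∈ S → stepP ρ (ρ a) s a = ρ s) ∧
  (ρ (ρ a) ∉ S → ∀ y ∈ S, ∃ s ∈ E.erase (ρ a), ρ s = y) ∧
  (((E.erase (ρ a)).filter fun s => stepP ρ (ρ a) s a ∈ S).card ≤ S.card + Wc ρ E S) ∧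
  -- other new adjacencies
  (ρ (ρ a) ∉ S → ∀ s ∈ E.erase (ρ a), ∀ x ∈ S, x ≠ a → stepP ρ (ρ a) s x ∉ S) ∧
  (((E.erase (ρ a)).filter fun s => ∃ x ∈ S, x ≠ a ∧ stepP ρ (ρ a) s x ∈ S).card ≤ S.card) := by
  intro V _ _ ρ E S a hES hfix haS hSS
  have hd : ∀ x ∈ E, x ∉ S := fun x hx hx' => (Finset.disjoint_left.1 hES) hx hx'
  have heS : ρ a ∉ S := hSS a haS
  have hea : ρ a ≠ a := fun h => heS (h.symm ▸ haS)
  have hee : ρ (ρ a) ≠ ρ a := fun h => hea (ρ.injective h)
  have heE : ρ a ∈ E := by
    by_contra h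
    exact hee (hfix _ h heS)
  have hval : ∀ s ∈ E.erase (ρ a), ∀ x, stepP ρ (ρ a) s x = if x = ρ a then ρ a else
      if x = s then s else if x = a then (if ρ s = s then ρ (ρ a) else ρ s) else
      if ρ x = s then ρ (ρ a) else ρ x := by
    intro s hs x
    rw [Finset.mem_erase] at hs
    exact stepP_apply ρ a s hea (fun h => hd s hs.2 (h ▸ haS)) hs.1 x
  have hvala : ∀ s ∈ E.erase (ρ a), stepP ρ (ρ a) s a = if ρ s = s then ρ (ρ a) else ρ s := by
    intro s hs
    have hsE := (Finset.mem_erase.1 hs).2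
    rw [hval s hs, if_neg (Ne.symm hea), if_neg (show ¬ a = s from fun h => hd s hsE (h ▸ haS)),
      if_pos rfl]
  set W : Finset V := E.filter fun x => ρ (ρ x) = x ∧ ρ x ∉ S with hW
  have hWc : Wc ρ E S = W.card := rfl
  obtain ⟨g, hg1, hgU, hgS, hgn⟩ := Ua_spec ρ S a haS heS
  have hgpos : 0 < Ua ρ S a := by rw [hgU]; positivity
  -- the main estimate
  have hmain : ∑ s ∈ (E.erase (ρ a)).filter (fun s => stepP ρ (ρ a) s a ∉ S),
      Ua (stepP ρ (ρ a) s) S a ≤ S.card + 2 * Ua ρ S a * Wc ρ E S + Ua ρ S a * E.card / 2 := by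
    classical
    set T := (E.erase (ρ a)).filter (fun s => stepP ρ (ρ a) s a ∉ S) with hT
    have hTE : ∀ s ∈ T, s ∈ E.erase (ρ a) := fun s hs => (Finset.mem_filter.1 hs).1
    have hTS : ∀ s ∈ T, stepP ρ (ρ a) s a ∉ S := fun s hs => (Finset.mem_filter.1 hs).2
    -- free points
    have hfree : ∀ s ∈ T, (∀ i, (ρ ^ i) s ∉ S) → ∀ c : ℕ, 1 ≤ c → (ρ ^ c) s = s →
        (∀ i, 1 ≤ i → i < c → (ρ ^ i) s ≠ s) →
        Ua (stepP ρ (ρ a) s) S a ≤ (1 / 2) ^ (g + c - 2) := by
      intro s hs hf c hc1 hcs hc
      have hsE := hTE s hs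
      have hse : s ≠ ρ a := (Finset.mem_erase.1 hsE).1
      -- `s` is not on the orbit of `a`
      have hsa : ∀ l, l ≤ g + 1 → (ρ ^ l) a ≠ s := by
        intro l hl h
        apply hf (g + 1 - l)
        rw [← h, ← pow_add_app, show g + 1 - l + l = g + 1 by omega]
        exact hgS
      have hpath : ∀ i, 1 ≤ i → (i < c → ((stepP ρ (ρ a) s) ^ i) a = (ρ ^ i) s) ∧
          (c ≤ i → i - c + 2 ≤ g + 1 → ((stepP ρ (ρ a) s) ^ i) a = (ρ ^ (i - c + 2)) a) := by
        intro i hi
        induction i, hi using Nat.le_induction with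
        | base =>
          constructor
          · intro h1
            rw [pow_one, pow_one, hvala s hsE, if_neg]
            have := hc 1 le_rfl h1
            rwa [pow_one] at this
          · intro h1 _
            have hc' : c = 1 := by omega
            rw [hc', pow_one] at hcs
            rw [pow_one, hvala s hsE, if_pos hcs, hc', show 1 - 1 + 2 = 1 + 1 by omega,
              pow_succ_app, pow_one]
        | succ i hi ih =>
          obtain ⟨ih1, ih2⟩ := ih
          constructor
          · intro h1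
            rw [pow_succ_app, ih1 (by omega), hval s hsE, if_neg, if_neg, if_neg, if_neg,
              pow_succ_app]
            · rw [← pow_succ_app]
              exact hc (i + 1) (by omega) h1
            · exact fun h => hf i (h.symm ▸ haS)
            · exact hc i hi (by omega)
            · intro h
              apply hf (g + i)
              rw [pow_add_app, h, ← pow_succ_app']
              exact hgS
          · intro h1 h2
            rcases eq_or_lt_of_le h1 with h3 | h3
            · rw [pow_succ_app, ih1 (by omega), hval s hsE, if_neg, if_neg, if_neg, if_pos,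
                show i + 1 - c + 2 = 1 + 1 by omega, pow_succ_app, pow_one]
              · rw [← pow_succ_app, ← h3]
                exact hcs
              · exact fun h => hf i (h.symm ▸ haS)
              · exact hc i hi (by omega)
              · intro h
                apply hf (g + i)
                rw [pow_add_app, h, ← pow_succ_app']
                exact hgS
            · have h4 : i + 1 - c + 2 = (i - c + 2) + 1 := by omega
              have q1 : ¬ (ρ ^ (i - c + 2)) a = ρ a := by
                intro h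
                have h5 : (ρ ^ (i - c + 1)) a = a := by
                  apply ρ.injective
                  rw [← pow_succ_app]
                  exact h
                apply hgn (i - c + 1) (by omega) (by omega)
                rw [h5]
                exact haS
              have q2 : ¬ (ρ ^ (i - c + 2)) a = s := hsa _ (by omega)
              have q3 : ¬ (ρ ^ (i - c + 2)) a = a := by
                intro h
                apply hgn (i - c + 2) (by omega) (by omega)
                rw [h]
                exact haS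
              have q4 : ¬ ρ ((ρ ^ (i - c + 2)) a) = s := by
                intro h
                rw [← pow_succ_app] at h
                exact hsa _ (by omega) h
              rw [pow_succ_app, ih2 (by omega) (by omega), hval s hsE, if_neg q1, if_neg q2,
                if_neg q3, if_neg q4, h4]
              exact (pow_succ_app ρ (i - c + 2) a).symm
      have := Ua_le (stepP ρ (ρ a) s) S a haS (g + c - 1) (by
        intro i hi1 hi2
        by_cases hic : i < c
        · rw [(hpath i hi1).1 hic]
          exact hf i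
        · rw [(hpath i hi1).2 (by omega) (by omega)]
          exact hgn _ (by omega) (by omega))
      rwa [show g + c - 1 - 1 = g + c - 2 by omega] at this
    -- non-free points
    have hnon : ∀ s ∈ T, (∃ i, (ρ ^ i) s ∈ S) → ∃ r : ℕ, 2 ≤ r ∧ (ρ ^ r) s ∈ S ∧
        Ua (stepP ρ (ρ a) s) S a ≤ (1 / 2) ^ (r - 1) := by
      intro s hs hf
      have hsE := hTE s hs
      have hse : s ≠ ρ a := (Finset.mem_erase.1 hsE).1
      have hsS : s ∉ S := hd s (Finset.mem_erase.1 hsE).2
      set r := Nat.find hf with hr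
      have hrS : (ρ ^ r) s ∈ S := Nat.find_spec hf
      have hrm : ∀ i, i < r → (ρ ^ i) s ∉ S := fun i hi => Nat.find_min hf hi
      have hss : ρ s ≠ s := by
        intro h
        have : ∀ i : ℕ, (ρ ^ i) s = s := by
          intro i
          induction i with
          | zero => rfl
          | succ i ih => rw [pow_succ_app, ih, h]
        rw [this] at hrS
        exact hsS hrS
      have hr0 : r ≠ 0 := by
        intro h
        rw [h] at hrS
        exact hsS hrS
      have hr1 : r ≠ 1 := by
        intro h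
        rw [h, pow_one] at hrS
        have := hTS s hs
        rw [hvala s hsE, if_neg hss] at this
        exact this hrS
      have hper : ∀ i, 1 ≤ i → i ≤ r → (ρ ^ i) s ≠ s := by
        intro i hi1 hi2 h
        apply hrm (r - i) (by omega)
        have h3 : (ρ ^ r) s = (ρ ^ (r - i)) s := by
          conv_lhs => rw [show r = (r - i) + i by omega, pow_add_app, h]
        rw [← h3]
        exact hrS
      have hpath : ∀ i, 1 ≤ i → i < r → ((stepP ρ (ρ a) s) ^ i) a = (ρ ^ i) s := by
        intro i hi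
        induction i, hi using Nat.le_induction with
        | base =>
          intro _
          rw [pow_one, pow_one, hvala s hsE, if_neg hss]
        | succ i hi ih =>
          intro h1
          rw [pow_succ_app, ih (by omega), hval s hsE, if_neg, if_neg, if_neg, if_neg,
            pow_succ_app]
          · rw [← pow_succ_app]
            exact hper _ (by omega) (by omega)
          · exact fun h => hrm i (by omega) (h.symm ▸ haS)
          · exact hper _ hi (by omega)
          · intro h
            have h5 : (ρ ^ (i - 1)) s = a := by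
              apply ρ.injective
              rw [← pow_succ_app, show i - 1 + 1 = i by omega]
              exact h
            apply hrm (i - 1) (by omega)
            rw [h5]
            exact haS
      refine ⟨r, by omega, hrS, Ua_le _ S a haS r fun i hi1 hi2 => ?_⟩
      rw [hpath i hi1 hi2]
      exact hrm i hi2
    choose! r hr2 hrS hrU using hnon
    have hone : ∀ s ∈ T, Ua (stepP ρ (ρ a) s) S a ≤
        (if ∃ i, (ρ ^ i) s ∈ S then ((1 : ℝ) / 2) ^ (r s - 1) else 0) +
          (if s ∈ W then 2 * Ua ρ S a else 0) + Ua ρ S a / 2 := by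
      intro s hs
      by_cases hf : ∃ i, (ρ ^ i) s ∈ S
      · rw [if_pos hf]
        have h1 := hrU s hs hf
        have h2 : 0 ≤ if s ∈ W then 2 * Ua ρ S a else 0 := by split_ifs <;> positivity
        linarith
      · rw [if_neg hf]
        have hf' : ∀ i, (ρ ^ i) s ∉ S := fun i h => hf ⟨i, h⟩
        have hex : ∃ c : ℕ, 1 ≤ c ∧ (ρ ^ c) s = s :=
          ⟨orderOf ρ, orderOf_pos ρ, by rw [pow_orderOf_eq_one]; rfl⟩
        set c := Nat.find hex with hc
        have hcspec : 1 ≤ c ∧ (ρ ^ c) s = s := Nat.find_spec hex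
        obtain ⟨hc1, hcs⟩ := hcspec
        have hcm : ∀ i, 1 ≤ i → i < c → (ρ ^ i) s ≠ s := fun i hi1 hi2 h =>
          Nat.find_min hex hi2 ⟨hi1, h⟩
        have h1 := hfree s hs hf' c hc1 hcs hcm
        by_cases hsW : s ∈ W
        · rw [if_pos hsW]
          have h2 : ((1 : ℝ) / 2) ^ (g + c - 2) ≤ (1 / 2) ^ (g - 1) :=
            pow_le_pow_of_le_one (by norm_num) (by norm_num) (by omega)
          have h3 : ((1 : ℝ) / 2) ^ (g - 1) = 2 * Ua ρ S a := by
            rw [hgU]
            conv_rhs => rw [show g = (g - 1) + 1 by omega, pow_succ]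
            ring
          linarith
        · rw [if_neg hsW]
          have hc3 : 3 ≤ c := by
            by_contra hlt
            apply hsW
            rw [hW, Finset.mem_filter]
            refine ⟨(Finset.mem_erase.1 (hTE s hs)).2, ?_, ?_⟩
            · have : c = 1 ∨ c = 2 := by omega
              rcases this with h | h
              · rw [h, pow_one] at hcs
                rw [hcs, hcs]
              · rw [h, show 2 = 1 + 1 by norm_num, pow_succ_app, pow_one] at hcs
                exact hcs
            · have := hf' 1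
              rwa [pow_one] at this
          have h2 : ((1 : ℝ) / 2) ^ (g + c - 2) ≤ (1 / 2) ^ (g + 1) :=
            pow_le_pow_of_le_one (by norm_num) (by norm_num) (by omega)
          have h3 : ((1 : ℝ) / 2) ^ (g + 1) = Ua ρ S a / 2 := by
            rw [hgU, pow_succ]
            ring
          linarith
    refine (Finset.sum_le_sum hone).trans ?_
    rw [Finset.sum_add_distrib, Finset.sum_add_distrib, ← Finset.sum_filter, ← Finset.sum_filter,
      Finset.sum_const, Finset.sum_const, nsmul_eq_mul, nsmul_eq_mul, hWc]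
    have k1 : ∑ s ∈ T.filter (fun s => ∃ i, (ρ ^ i) s ∈ S), ((1 : ℝ) / 2) ^ (r s - 1) ≤ S.card := by
      apply sum_hit ρ S
      · intro s hs
        rw [Finset.mem_filter] at hs
        exact hr2 s hs.1 hs.2
      · intro s hs
        rw [Finset.mem_filter] at hs
        exact hrS s hs.1 hs.2
    have k2 : ((T.filter (fun s => s ∈ W)).card : ℝ) ≤ W.card := by
      exact_mod_cast Finset.card_le_card fun s hs => (Finset.mem_filter.1 hs).2
    have k3 : (T.card : ℝ) ≤ E.card := by
      exact_mod_cast Finset.card_le_card fun s hs => (Finset.mem_erase.1 (hTE s hs)).2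
    have k4 : ((T.filter (fun s => s ∈ W)).card : ℝ) * (2 * Ua ρ S a) ≤
        W.card * (2 * Ua ρ S a) := mul_le_mul_of_nonneg_right k2 (by positivity)
    have k5 : (T.card : ℝ) * (Ua ρ S a / 2) ≤ E.card * (Ua ρ S a / 2) :=
      mul_le_mul_of_nonneg_right k3 (by positivity)
    linarith
  have hhalf : Ua ρ S a ≤ 1 / 2 := by
    rw [hgU]
    have : ((1 : ℝ) / 2) ^ g ≤ (1 / 2) ^ 1 :=
      pow_le_pow_of_le_one (by norm_num) (by norm_num) hg1
    simpa using this
  refine ⟨hmain, hhalf, ?_, ?_, ?_, ?_, ?_, ?_, ?_⟩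
  · constructor
    · intro h
      have hg : g = 1 := by
        by_contra hne
        have h2 : ((1 : ℝ) / 2) ^ g ≤ (1 / 2) ^ 2 :=
          pow_le_pow_of_le_one (by norm_num) (by norm_num) (by omega)
        rw [← hgU, h] at h2
        norm_num at h2
      rw [hg, show 1 + 1 = 1 + 1 by rfl, pow_succ_app, pow_one] at hgS
      exact hgS
    · intro h
      have hg : g = 1 := by
        by_contra hne
        apply hgn 2 (by norm_num) (by omega)
        rw [show 2 = 1 + 1 by norm_num, pow_succ_app, pow_one]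
        exact h
      rw [hgU, hg, pow_one]
  · intro h s hs
    have hsS : s ∉ S := hd s (Finset.mem_erase.1 hs).2
    rw [hvala s hs]
    by_cases hss : ρ s = s
    · rw [if_pos hss, hss]
      exact ⟨fun h' => absurd h' h, fun h' => absurd h' hsS⟩
    · rw [if_neg hss]
  · intro h s hs hsS'
    have hsS : s ∉ S := hd s (Finset.mem_erase.1 hs).2
    rw [hvala s hs, if_neg]
    intro h'
    rw [h'] at hsS'
    exact hsS hsS'
  · intro h y hy
    refine ⟨ρ⁻¹ y, ?_, Equiv.apply_symm_apply ρ y⟩
    have h1 : ρ (ρ⁻¹ y) = y := Equiv.apply_symm_apply ρ y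
    rw [Finset.mem_erase]
    constructor
    · intro h2
      rw [h2] at h1
      rw [h1] at h
      exact h hy
    · by_contra h2
      have h3 : ρ⁻¹ y ∉ S := by
        intro h4
        apply hSS _ h4
        rw [h1]
        exact hy
      have h4 := hfix _ h2 h3
      rw [h1] at h4
      rw [← h4] at h3
      exact h3 hy
  · have h1 : (E.erase (ρ a)).filter (fun s => stepP ρ (ρ a) s a ∈ S) ⊆
        S.image (ρ⁻¹ : Perm V) ∪ W := by
      intro s hs
      rw [Finset.mem_filter] at hs
      have hsE := (Finset.mem_erase.1 hs.1).2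
      have hsS : s ∉ S := hd s hsE
      have h2 := hs.2
      rw [hvala s hs.1] at h2
      rw [Finset.mem_union]
      by_cases hss : ρ s = s
      · right
        rw [hW, Finset.mem_filter]
        exact ⟨hsE, by rw [hss, hss], by rw [hss]; exact hsS⟩
      · left
        rw [if_neg hss] at h2
        rw [Finset.mem_image]
        exact ⟨_, h2, Equiv.symm_apply_apply ρ s⟩
    rw [hWc]
    exact (Finset.card_le_card h1).trans ((Finset.card_union_le _ _).trans
      (add_le_add_left Finset.card_image_le _))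
  · intro h s hs x hx hxa
    have hsE := (Finset.mem_erase.1 hs).2
    rw [hval s hs, if_neg (show ¬ x = ρ a from fun h' => heS (h' ▸ hx)),
      if_neg (show ¬ x = s from fun h' => hd s hsE (h' ▸ hx)), if_neg hxa]
    split_ifs
    · exact h
    · exact hSS x hx
  · have h1 : (E.erase (ρ a)).filter (fun s => ∃ x ∈ S, x ≠ a ∧ stepP ρ (ρ a) s x ∈ S) ⊆
        S.image ρ := by
      intro s hs
      rw [Finset.mem_filter] at hs
      obtain ⟨hs1, x, hx, hxa, h2⟩ := hs
      have hsE := (Finset.mem_erase.1 hs1).2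
      rw [hval s hs1, if_neg (show ¬ x = ρ a from fun h' => heS (h' ▸ hx)),
        if_neg (show ¬ x = s from fun h' => hd s hsE (h' ▸ hx)), if_neg hxa] at h2
      rw [Finset.mem_image]
      by_cases hq : ρ x = s
      · exact ⟨x, hx, hq⟩
      · rw [if_neg hq] at h2
        exact absurd h2 (hSS x hx)
    exact (Finset.card_le_card h1).trans Finset.card_image_le

theorem main : S_local := by
  intro V _ _ ρ E S a h1 h2 h3 h4
  obtain ⟨a1, a2, a3, a4, a5⟩ := main1 V ρ E S a h1 h2 h3 h4
  exact ⟨a1, a2, a3, a4, a5, main2 V ρ E S a h1 h2 h3 h4⟩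

end W349.PD
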